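import Pool.Agent.Q299.TD.Reached

/-!
MP_5b7a2c_ag: log uniformization of all valuations in a class which is closed under composition
and under towers without defect, in all dimensions, ranks and (mixed) characteristics.

Let `R` be a base ring (for example a field, a Dedekind domain of characteristic zero, an
`F`-finite regular ring, or a complete local ring with an `F`-finite residue field). Let
`IsReached R` be the smallest class of valuation rings `V` of fields `K` over `R` which contains

* the trivial valuations, the discrete valuations of arbitrary finite rank (more generally the
  finite composites of discrete and divergent valuations), the divergent valuations, and the
  valuations which are log uniformizable on all `R`-algebras of finite type in `V` with fraction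
  field `K` (by Cossart and Piltant all valuations if `R` is quasi-excellent and these algebras have
  dimension at most `3`);

and which is closed under

* composition: `V` is the composite of `V₁` and a valuation ring `W` of the residue field of `V₁`,
  the class contains `V₁` and `W ∩ F` for every field `F` in the residue field of `V₁` which is
  finitely generated over `R`;
* towers without defect: `K` is reached from a subfield `E`, finitely generated over `R`, by
  finitely many steps of the following kinds, and the class contains `V ∩ E`: `L ⊂ L(t)` with `t`
  transcendental, such that the value of every polynomial in `t` is determined by a defectless key
  polynomial; finite extensions `L ⊂ L'` without defect.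

Then every `V` in the class is log uniformizable on `Spec A` for every `R`-algebra `A ⊆ V` of
finite type with fraction field `K`. The two operations can be alternated: for example, the
coarse part of `V` may be a defectless tower over a discrete valuation, and the next part a
defectless tower over another discrete valuation of its residue field, which need not be finitely
generated. (The starting result `DiscreteValuations` has iterated composites of discrete and
divergent valuations only, and the starting result `KeyPolynomialTowers` has one tower over a
Dedekind ring or a base for which log uniformization is assumed.)
-/

set_option autoImplicit false

universe u

namespace Pool.Agent.Results.MP_5b7a2c_ag.CompositesAndTowers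

open Pool.Agent.Q299.TD
open Pool.Agent.Results.MP_5b7a2c_ag.KeyPolynomialTowers (IsLogUniformizable)
open Pool.Agent.Results.MP_5b7a2c_ag.DiscreteValuations (IsBaseRing adjoined)

/-- Let `R` be a base ring: each quotient domain `R / 𝔭` is a field, or is of finite type over a
regular domain `R₁` such that `R₁` is `F`-finite, or `R₁` is formally smooth over a perfect field,
or `R₁` is a subring of `R / 𝔭` and `R / 𝔭` has characteristic zero. Let `K` be a field which is an
`R`-algebra by `ρ`, and let `V` be a valuation ring of `K` in the class `IsReached R`, that is, `V`
is obtained from trivial, discrete, divergent, or log uniformizable valuations by composition and
by towers of transcendental steps without limit key polynomials and finite extensions without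
defect. Then `V` is log uniformizable on `Spec A` for every `R`-algebra `A = adjoined ρ G` of finite
type in `V` with fraction field `K`: for every closed subset `V(D)` of `Spec A` and for every
blowing-up `X₀` of `Spec A` there is a blowing-up of `Spec A` which factors through `X₀` and which
is a log desingularization of `(Spec A, V(D))` along `V`. -/
theorem result {R : Type u} [CommRing R] (hR : IsBaseRing R) {K : Type u} [Field K] (ρ : R →+* K)
    (V : ValuationSubring K) (hV : IsReached R ρ V) (G : Set K) (hG : G.Finite)
    (hA : IsModel V (adjoined ρ G)) : IsLogUniformizable V (adjoined ρ G) :=
  logUnif_of_isReached hR.hj ρ V hV G hG hA

end Pool.Agent.Results.MP_5b7a2c_ag.CompositesAndTowers
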