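import Pool.Agent.Q83.TV.Fld
import Pool.Agent.W558.WT.Asm3
import Pool.Agent.W135.WT.Fam

/-!
MP_5b7a2c_ag: uniformization of tensor products of valuations of surfaces on all models of the
quotients of products of surfaces by finite abelian groups, in all even dimensions and with wild
ramification.

The fields: `K` is the function field of a product of surfaces with the function fields
`E 1, ..., E n` over a perfect field `k` of characteristic `p`. A finite abelian group `G` acts on
`K` by automorphisms over `k` which map the `E i` to themselves; `g ^ (p * m) = 1` for all `g ∈ G`,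
where `k` contains a primitive `m`-th root of unity, and the order of the group of automorphisms of
`E i` induced by `G` is not divisible by `p ^ 2`. `N` is the field of invariants, the function field of
the quotient of the product of the surfaces by `G`; for example by the diagonal action of a cyclic
group of order `p * m`.

The valuations: let `F i` be the field of invariants in `E i`, the function field of the
surface `X i / G`. A valuation of `N` over `k` is considered here if on the ring `k[F 1, ..., F n]`
it is given by its values on the products `s 1 * ... * s n`, `s i ∈ F i`: every element `z` of this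
ring is a sum of such products whose values are not larger than the value of `z`. These are the
valuations of `N` whose restriction to `F 1 ⊗ ... ⊗ F n` is the tensor product norm of arbitrary
valuations of the surfaces `X i / G` (for example with infinitely many free and satellite points,
and with defect in the extension to `N`); for instance if their value groups are independent and
their residue fields are linearly disjoint over `k`.

The theorem: such a valuation is uniformizable on every affine variety with the function field `N`:
every blowing-up is dominated by a blowing-up which is regular at the centre of the valuation.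

The proof: (1) `Pool.Agent.Q83.TV.fieldA`: the construction of helper214 for the resolution of the
affine quotients (MP_19ffc6_ag.AbelianQuotients of the starting files) is carried out for the field
`N`; for every finite set of products `s 1 * ... * s n`, `s i ∈ F i`, there is a smooth projective
model of `N` on which these products are locally monomials. (2) helper214's criterion
`Pool.Agent.TH214.U.unif_abs`, used in the starting results `TensorValuations` and
`TensorValuationsInseparable` for covers of products of surfaces.
-/

set_option autoImplicit false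

namespace Pool.Agent.Results.MP_5b7a2c_ag.GroupQuotients

open Pool.Agent.W418.LU2

/-- The local ring of `Spec B` at the centre of the valuation ring `V`: the fractions of elements
of `B` whose denominators are units of `V`. -/
def centreRing {F : Type} [Field F] (V : ValuationSubring F) (B : Subring F) : Subring F where
  carrier := {x | ∃ a ∈ B, ∃ b ∈ B, b ≠ 0 ∧ b⁻¹ ∈ V ∧ x = a * b⁻¹}
  mul_mem' := (lo V.toSubring B).mul_mem'
  one_mem' := (lo V.toSubring B).one_mem'
  add_mem' := (lo V.toSubring B).add_mem'
  zero_mem' := (lo V.toSubring B).zero_mem'
  neg_mem' := (lo V.toSubring B).neg_mem'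

/-- The chart `A[I / f]` of the blowing-up of `Spec A` in the ideal `I`. -/
def blowUpChart {F : Type} [Field F] (A : Subring F) (I : Ideal A) (f : A) : Subring F :=
  Subring.closure ((A : Set F) ∪ {z | ∃ a ∈ I, z = (a : F) / (f : F)})

/-- The blowing-up of `X = Spec A` in the ideal `I` is regular at the centre of the lift of the
valuation. Here `f ∈ I` generates `I V`, so the centre lies in the chart `Spec A[I / f]`. -/
def IsRegularAtCentre {F : Type} [Field F] (V : ValuationSubring F) (A : Subring F)
    (I : Ideal A) : Prop :=
  ∃ f ∈ I, f ≠ 0 ∧ (∀ a ∈ I, (a : F) / (f : F) ∈ V) ∧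
    IsRegularLocalRing (centreRing V (blowUpChart A I f))

/-- The valuation ring `V` is uniformizable on `Spec A`: some cofinal family of blowings-up of
`Spec A` consists of blowings-up which are regular at the centre of the lift of the valuation. (The
blowing-up in `I₀ * I₁` factors through the blowing-up in `I₀`, and the ideals `I₀ ≠ 0` are
arbitrary.) -/
def IsUniformizable {F : Type} [Field F] (V : ValuationSubring F) (A : Subring F) : Prop :=
  ∀ I₀ : Ideal A, I₀ ≠ ⊥ → ∃ I₁ : Ideal A, I₁ ≠ ⊥ ∧ IsRegularAtCentre V A (I₀ * I₁)

/-- The field `E` is the function field of a smooth projective variety over `k`, given by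
homogeneous coordinates `H 0, ..., H N` in `E`: the coordinate rings `k[H 0 / H i, ..., H N / H i]`
of the charts are smooth over `k` and have the fraction field `E`. For function fields of surfaces
over perfect fields this condition is always satisfied, by the resolution of singularities of
surfaces. -/
def HasSmoothProjectiveModel (k E : Type) [Field k] [Field E] [Algebra k E] : Prop :=
  ∃ (N : ℕ) (H : Fin (N + 1) → E), (∀ i, H i ≠ 0) ∧ ∀ i,
    Algebra.Smooth k (Algebra.adjoin k (Set.range fun j => H j / H i)) ∧
    IsFractionRing (Algebra.adjoin k (Set.range fun j => H j / H i)) E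

/-- The field of invariants of the group `G` acting on the field `L` by `ρ`: the elements which are
fixed by the automorphisms in the image of `G`. -/
def invariants {k L : Type} [Field k] [Field L] [Algebra k L] {G : Type} [CommGroup G]
    (ρ : G →* (L ≃ₐ[k] L)) : IntermediateField k L where
  carrier := {x | ∀ t ∈ Set.range ρ, t x = x}
  mul_mem' := fun ha hb t ht => by rw [map_mul, ha t ht, hb t ht]
  add_mem' := fun ha hb t ht => by rw [map_add, ha t ht, hb t ht]
  algebraMap_mem' := fun c t _ => t.commutes c
  inv_mem' := fun a ha t ht => by rw [map_inv₀, ha t ht]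

section

variable {k K : Type} [Field k] [Field K] [Algebra k K] {n : ℕ}
  (E : Fin n → IntermediateField k K) {G : Type} [CommGroup G] (τ : G →* (K ≃ₐ[k] K))
  (ρ : ∀ i, G →* (E i ≃ₐ[k] E i))

/-- The subfields `E 1, ..., E n` of `K` are linearly disjoint over `k`: the homomorphism from their
tensor product over `k` to `K`, which maps `x 1 ⊗ ... ⊗ x n` to `x 1 * ... * x n`, is
injective. -/
def LinearlyDisjoint : Prop :=
  Function.Injective (PiTensorProduct.lift ((MultilinearMap.mkPiAlgebra k (Fin n) K).compLinearMap
    fun i => (E i).val.toLinearMap))

/-- The field `K` is generated by its linearly disjoint subfields `E 1, ..., E n`, the group `G` acts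
on `K` and on the `E i` by the same automorphisms, and the fields of invariants in the `E i` are
function fields of smooth projective surfaces over `k`. -/
structure IsProductOfSurfaces : Prop where
  disjoint : LinearlyDisjoint E
  generate : IntermediateField.adjoin k (⋃ i, (E i : Set K)) = ⊤
  action : ∀ g i (x : E i), τ g x = ρ i g x
  surface : ∀ i, Algebra.trdeg k (invariants (ρ i)) = 2 ∧
    HasSmoothProjectiveModel k (invariants (ρ i))

/-- The element `x` of `K` is a product of `G`-invariant elements `s i` of the `E i`. -/
def IsProductOfInvariants (x : K) : Prop :=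
  ∃ s : Fin n → K, (∀ i, s i ∈ E i ∧ ∀ g, τ g (s i) = s i) ∧ x = ∏ i, s i

/-- On the ring generated by `k` and the invariant elements of the `E i`, the valuation of the field
of invariants is given by its values on the products `s 1 * ... * s n` of invariant elements
`s i ∈ E i`: every element `z` of this ring is a finite sum of such products, whose values (in
multiplicative notation) are at most the value of `z`. -/
def IsTensorProductOfRestrictions (W : ValuationSubring (invariants τ)) : Prop :=
  ∀ z ∈ Algebra.adjoin k {x : invariants τ | ∃ i, (x : K) ∈ E i},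
    ∃ (m : ℕ) (a : Fin m → invariants τ), (∀ j, IsProductOfInvariants E τ (a j : K)) ∧
      z = ∑ j, a j ∧ ∀ j, W.valuation (a j) ≤ W.valuation z

end

/-- Let `k` be a perfect field of characteristic `p`, which contains a primitive `m`-th root of
unity, and let `G` be a finite commutative group with `g ^ (p * m) = 1` for all `g ∈ G`. Let the
field extension `K` of `k` be generated by linearly disjoint subfields `E 1, ..., E n`, and let `G` act
on `K` by automorphisms over `k` which map the `E i` to themselves, such that the order of the
group of automorphisms of `E i` induced by `G` is not divisible by `p ^ 2`, and such that the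
fields of invariants in the `E i` are function fields of smooth projective surfaces over `k`. Let
`N` be the field of invariants in `K`, and let `W` be a valuation ring of `N` over `k` which on the
ring generated by the invariant elements of the `E i` is given by its values on the products
`s 1 * ... * s n` of invariant elements `s i ∈ E i`. Then `W` is uniformizable on every affine
variety `Spec A` over `k` with the function field `N` on which it has a centre. -/
theorem result (p : ℕ) [Fact p.Prime] (k K : Type) [Field k] [PerfectField k] [CharP k p]
    [Field K] [Algebra k K] (n m : ℕ) (hm : 0 < m) (ζ : k) (hζ : IsPrimitiveRoot ζ m)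
    (G : Type) [CommGroup G] [Finite G] (hG : ∀ g : G, g ^ (p * m) = 1)
    (E : Fin n → IntermediateField k K) (τ : G →* (K ≃ₐ[k] K))
    (ρ : ∀ i, G →* (E i ≃ₐ[k] E i)) (hE : IsProductOfSurfaces E τ ρ)
    (hρ : ∀ i, ¬ p ^ 2 ∣ Nat.card (ρ i).range) (W : ValuationSubring (invariants τ))
    (hkW : ∀ c : k, algebraMap k (invariants τ) c ∈ W) (hW : IsTensorProductOfRestrictions E τ W)
    (A : Subalgebra k (invariants τ)) (hA : A.FG)
    (hfr : ∀ x : invariants τ, ∃ a ∈ A, ∃ b ∈ A, b ≠ 0 ∧ x = a * b⁻¹) (hAW : ∀ a ∈ A, a ∈ W) :
    IsUniformizable W A.toSubring := by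
  classical
  have hfG : Fintype G := Fintype.ofFinite G
  have hmod : ∀ (E : Type) [Field E] [Algebra k E], HasSmoothProjectiveModel k E →
      Pool.Agent.W558.HasModel k E := by
    rintro E _ _ ⟨N, H, h0, h1⟩
    refine ⟨N, H, h0, fun i => ⟨(h1 i).1, fun x => ?_⟩⟩
    have h2 := (h1 i).2
    obtain ⟨a, b, hb, rfl⟩ := IsFractionRing.div_surjective
      (A := Algebra.adjoin k (Set.range fun j => H j / H i)) x
    exact ⟨a, a.2, b, b.2, fun h => nonZeroDivisors.ne_zero hb (Subtype.ext h),
      div_eq_mul_inv _ _⟩
  let e : ∀ i, E i →ₐ[k] K := fun i => (E i).val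
  have hΦ : Function.Injective (Pool.Agent.W410.WT.Phi e) := by
    have h1 : ∀ x, Pool.Agent.W410.WT.Phi e x = PiTensorProduct.lift
        ((MultilinearMap.mkPiAlgebra k (Fin n) K).compLinearMap
          fun i => (E i).val.toLinearMap) x := by
      intro x
      have h2 : (Pool.Agent.W410.WT.Phi e).toLinearMap = PiTensorProduct.lift
          ((MultilinearMap.mkPiAlgebra k (Fin n) K).compLinearMap
            fun i => (E i).val.toLinearMap) := by
        apply PiTensorProduct.ext
        ext a
        simp only [LinearMap.compMultilinearMap_apply, AlgHom.toLinearMap_apply]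
        rw [Pool.Agent.W410.WT.Phi_tprod, PiTensorProduct.lift.tprod]
        rfl
      exact LinearMap.congr_fun h2 x
    intro x y hxy
    apply hE.disjoint
    rw [← h1, ← h1, hxy]
  have hinv : ∀ x : K, x ∈ invariants τ ↔ ∀ g, τ g x = x := fun x =>
    ⟨fun h g => h _ ⟨g, rfl⟩, fun h t ht => by obtain ⟨g, rfl⟩ := ht; exact h g⟩
  have hinvE : ∀ i (x : E i), x ∈ invariants (ρ i) ↔ ∀ g, τ g x = x := fun i x =>
    ⟨fun h g => (hE.action g i x).trans (congrArg Subtype.val (h _ ⟨g, rfl⟩)), fun h t ht => by
      obtain ⟨g, rfl⟩ := ht
      exact Subtype.ext ((hE.action g i x).symm.trans (h g))⟩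
  have hgenE : ∀ M : IntermediateField k K, (∀ i (y : E i), e i y ∈ M) → M = ⊤ := by
    intro M hM
    rw [eq_top_iff, ← hE.generate, IntermediateField.adjoin_le_iff]
    intro x hx
    obtain ⟨i, hi⟩ := Set.mem_iUnion.1 hx
    exact hM i ⟨x, hi⟩
  -- the transcendence degree
  have hfin : Algebra.trdeg k K < Cardinal.aleph0 := by
    have hfrac : IsFractionRing A (invariants τ) := by
      refine IsFractionRing.of_field _ _ fun x => ?_
      obtain ⟨a, ha, b, hb, hb0, h1⟩ := hfr x
      exact ⟨⟨a, ha⟩, ⟨b, hb⟩, h1.trans (div_eq_mul_inv _ _).symm⟩
    have hft : Algebra.FiniteType k A := (Subalgebra.fg_iff_finiteType A).1 hA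
    have h1 : Algebra.trdeg k (invariants τ) = Algebra.trdeg k K :=
      Pool.Agent.TH214.Q.trdeg_fix τ
    rw [← h1, Pool.Agent.W348.WTM.trdeg_frac k A (invariants τ)]
    exact _root_.trdeg_lt_aleph0_of_finiteType
  let S0 : Set (invariants τ) := {x | ∃ i, (x : K) ∈ E i}
  let M1 : IntermediateField k (invariants τ) := IntermediateField.adjoin k S0
  have halg : ∀ x : invariants τ, IsAlgebraic M1 x := by
    have hM : (algebraicClosure M1 K).restrictScalars k = ⊤ := by
      refine hgenE _ fun i x => ?_
      rw [IntermediateField.mem_restrictScalars, mem_algebraicClosure_iff]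
      have halgE : Algebra.IsAlgebraic (invariants (ρ i)) (E i) :=
        Pool.Agent.TH214.Q.alg_fix (ρ i)
      obtain ⟨q, hq, hqx⟩ := halgE.isAlgebraic x
      have hN : ∀ r : invariants (ρ i), ((r : E i) : K) ∈ invariants τ := fun r =>
        (hinv _).2 ((hinvE i r).1 r.2)
      have hM1 : ∀ r : invariants (ρ i), (⟨((r : E i) : K), hN r⟩ : invariants τ) ∈ M1 :=
        fun r => IntermediateField.subset_adjoin k S0 ⟨i, (r : E i).2⟩
      let φ : invariants (ρ i) →+* M1 :=
        { toFun := fun r => ⟨⟨((r : E i) : K), hN r⟩, hM1 r⟩
          map_one' := rfl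
          map_mul' := fun a b => rfl
          map_zero' := rfl
          map_add' := fun a b => rfl }
      refine ⟨q.map φ, (Polynomial.map_ne_zero_iff φ.injective).2 hq, ?_⟩
      rw [Polynomial.aeval_def, Polynomial.eval₂_map]
      have h2 : (algebraMap M1 K).comp φ =
          (e i : E i →+* K).comp (algebraMap (invariants (ρ i)) (E i)) :=
        RingHom.ext fun y => rfl
      rw [h2]
      have h3 := congrArg (e i : E i →+* K) hqx
      rw [Polynomial.aeval_def, Polynomial.hom_eval₂, map_zero] at h3
      exact h3
    intro x
    have hx : (x : K) ∈ (algebraicClosure M1 K).restrictScalars k := by rw [hM]; trivial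
    rw [IntermediateField.mem_restrictScalars, mem_algebraicClosure_iff] at hx
    exact (isAlgebraic_algebraMap_iff (algebraMap (invariants τ) K).injective).1 hx
  let Y : Set (invariants τ) := {y | y ≠ 0 ∧ IsProductOfInvariants E τ (y : K)}
  have hT : ∀ z ∈ Algebra.adjoin k S0, Pool.Agent.TH214.U.Dmn W Y z := by
    intro z hz
    obtain ⟨m, a, ha, hz', hv⟩ := hW z hz
    refine ⟨m, a, fun j => ?_, hz', hv⟩
    by_cases h0 : a j = 0
    · exact Or.inl h0
    · exact Or.inr ⟨h0, ha j⟩
  have h := Pool.Agent.TH214.U.unif_abs W hkW S0 Y (fun y hy => hy.1) hT halg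
    (fun S _ y hy => by
      choose hy0 s hs hys using hy
      refine Pool.Agent.Q83.TV.fieldA Pool.Agent.W558.wt_pack Pool.Agent.W558.ws_pack
        (Pool.Agent.W135.WT.Fam.main Pool.Agent.W558.wa_prod) p k n (fun i => E i) K e hΦ ρ τ hζ hm
        hG (fun i g g' hg hg' hne => Pool.Agent.TH214.Q.cyc_of_card (ρ i) (hρ i) g g' hg hg' hne)
        (fun i => (hE.surface i).1) (fun i => hmod _ (hE.surface i).2)
        (fun g i x => hE.action g i x) hgenE hfin S
        (fun b i => ⟨⟨s b i, (hs b i).1⟩, (hinvE i _).2 (hs b i).2⟩) (fun b i h0 => ?_) y
        (fun b => hys b)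
      have h1 : s b i = 0 := congrArg (fun z => ((z : E i) : K)) (congrArg Subtype.val h0)
      apply hy0 b
      apply Subtype.ext
      rw [hys b]
      exact Finset.prod_eq_zero (Finset.mem_univ i) h1) A hA hAW hfr
  intro I₀ hI₀
  obtain ⟨I₁, hI₁, g, hg, hg0, hgV, hreg⟩ := h I₀ hI₀
  exact ⟨I₁, hI₁, g, hg, hg0, hgV, hreg⟩

end Pool.Agent.Results.MP_5b7a2c_ag.GroupQuotients
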