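import Pool.Agent.TH214.U.Abs
import Pool.Agent.TH188.VQ.Fin

/-!
MP_5b7a2c_ag: uniformization of tensor products of valuations of surfaces on all models of the
quotients of products of surfaces by vector fields, in all even dimensions.

The fields: `K` is the function field of a product of surfaces with the function fields
`E 1, ..., E n` over a perfect field `k` of characteristic `p`. `D i` is a vector field on the
`i`-th factor with `(D i) ^ p = 0` for all `i`, or `(D i) ^ p = (μ i) ^ (p - 1) * D i`, `μ i ≠ 0` in
`k`, for all `i`. `N` is the field of common constants of any set of linear combinations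
`∑ i, v i * D i`, the function field of the quotient of the product of the surfaces by these vector
fields, that is, by a subgroup scheme of `(α_p) ^ n` or `(μ_p) ^ n` for actions of `α_p`, `μ_p` on the
surfaces. For example the quotient by `D 1 + ... + D n`; `N = K` if there are no linear
combinations.

The valuations: let `F i` be the field of constants of `D i` in `E i`, the function field of the
surface `X i / D i`. A valuation of `N` over `k` is considered here if on the ring `k[F 1, ..., F n]`
it is given by its values on the products `s 1 * ... * s n`, `s i ∈ F i`: every element `z` of this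
ring is a sum of such products whose values are not larger than the value of `z`. These are the
valuations of `N` whose restriction to `F 1 ⊗ ... ⊗ F n` is the tensor product norm of arbitrary
valuations of the surfaces `X i / D i` (for example with infinitely many free and satellite
points); for instance if their value groups are independent and their residue fields are
linearly disjoint over `k`.

The theorem: such a valuation is uniformizable on every affine variety with the function field `N`:
every blowing-up is dominated by a blowing-up which is regular at the centre of the valuation.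

The proof: (1) helper188's models (`Pool.Agent.TH188.VQ.exists_model_fld`, used there for the
resolution of affine quotients, MP_19ffc6_ag.SurfaceVectorFieldQuotients of the starting files): for
every finite set of products `s 1 * ... * s n` there is a smooth projective model of `N` on which
these products are locally monomials. (2) `N ^ p` is contained in the field generated by the `F i`.
(3) helper214's criterion `Pool.Agent.TH214.U.unif_abs`, used in the starting results
`TensorValuations` and `TensorValuationsInseparable` for covers of products of surfaces.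
-/

set_option autoImplicit false

namespace Pool.Agent.Results.MP_5b7a2c_ag.VectorFieldQuotients

open Pool.Agent.W418.LU2

/-- The local ring of `Spec B` at the centre of the valuation ring `V`: the fractions of elements
of `B` whose denominators are units of `V`. -/
def centreRing {F : Type} [Field F] (V : ValuationSubring F) (B : Subring F) : Subring F where
  carrier := {x | ∃ a ∈ B, ∃ b ∈ B, b ≠ 0 ∧ b⁻¹ ∈ V ∧ x = a * b⁻¹}
  mul_mem' := (lo V.toSubring B).mul_mem'
  one_mem' := (lo V.toSubring B).one_mem'
  add_mem' := (lo V.toSubring B).add_mem'
  zero_mem' := (lo V.toSubring B).zero_mem'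
  neg_mem' := (lo V.toSubring B).neg_mem'

/-- The chart `A[I / f]` of the blowing-up of `Spec A` in the ideal `I`. -/
def blowUpChart {F : Type} [Field F] (A : Subring F) (I : Ideal A) (f : A) : Subring F :=
  Subring.closure ((A : Set F) ∪ {z | ∃ a ∈ I, z = (a : F) / (f : F)})

/-- The blowing-up of `X = Spec A` in the ideal `I` is regular at the centre of the lift of the
valuation. Here `f ∈ I` generates `I V`, so the centre lies in the chart `Spec A[I / f]`. -/
def IsRegularAtCentre {F : Type} [Field F] (V : ValuationSubring F) (A : Subring F)
    (I : Ideal A) : Prop :=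
  ∃ f ∈ I, f ≠ 0 ∧ (∀ a ∈ I, (a : F) / (f : F) ∈ V) ∧
    IsRegularLocalRing (centreRing V (blowUpChart A I f))

/-- The valuation ring `V` is uniformizable on `Spec A`: some cofinal family of blowings-up of
`Spec A` consists of blowings-up which are regular at the centre of the lift of the valuation. (The
blowing-up in `I₀ * I₁` factors through the blowing-up in `I₀`, and the ideals `I₀ ≠ 0` are
arbitrary.) -/
def IsUniformizable {F : Type} [Field F] (V : ValuationSubring F) (A : Subring F) : Prop :=
  ∀ I₀ : Ideal A, I₀ ≠ ⊥ → ∃ I₁ : Ideal A, I₁ ≠ ⊥ ∧ IsRegularAtCentre V A (I₀ * I₁)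

/-- The field `E` is the function field of a smooth projective variety over `k`, given by
homogeneous coordinates `H 0, ..., H N` in `E`: the coordinate rings `k[H 0 / H i, ..., H N / H i]`
of the charts are smooth over `k` and have the fraction field `E`. For function fields of surfaces
over perfect fields this condition is always satisfied, by the resolution of singularities of
surfaces. -/
def HasSmoothProjectiveModel (k E : Type) [Field k] [Field E] [Algebra k E] : Prop :=
  ∃ (N : ℕ) (H : Fin (N + 1) → E), (∀ i, H i ≠ 0) ∧ ∀ i,
    Algebra.Smooth k (Algebra.adjoin k (Set.range fun j => H j / H i)) ∧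
    IsFractionRing (Algebra.adjoin k (Set.range fun j => H j / H i)) E

section

variable {k K : Type} [Field k] [Field K] [Algebra k K] {n : ℕ}
  (E : Fin n → IntermediateField k K) (D : Fin n → Derivation k K K)

/-- The subfields `E 1, ..., E n` of `K` are linearly disjoint over `k`: the homomorphism from their
tensor product over `k` to `K`, which maps `x 1 ⊗ ... ⊗ x n` to `x 1 * ... * x n`, is
injective. -/
def LinearlyDisjoint : Prop :=
  Function.Injective (PiTensorProduct.lift ((MultilinearMap.mkPiAlgebra k (Fin n) K).compLinearMap
    fun i => (E i).val.toLinearMap))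

/-- The field `K` is generated by its linearly disjoint subfields `E 1, ..., E n`, which are
function fields of smooth projective surfaces over `k`. -/
structure IsProductOfSurfaces : Prop where
  surface : ∀ i, Algebra.trdeg k (E i) = 2 ∧ HasSmoothProjectiveModel k (E i)
  disjoint : LinearlyDisjoint E
  generate : IntermediateField.adjoin k (⋃ i, (E i : Set K)) = ⊤

/-- The derivation `D i` of `K` maps `E i` to `E i` and vanishes on the `E l`, `l ≠ i`, and either
`(D i) ^ p = 0` on `E i` for all `i`, or there are elements `μ i ≠ 0` of `k` such that
`(D i) ^ p = μ i ^ (p - 1) * D i` on `E i` for all `i`. -/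
structure AreFieldsOnFactors (p : ℕ) : Prop where
  maps : ∀ i, ∀ x ∈ E i, D i x ∈ E i
  vanish : ∀ i l, i ≠ l → ∀ x ∈ E l, D i x = 0
  power : (∀ i, ∀ x ∈ E i, (D i)^[p] x = 0) ∨
    ∃ μ : Fin n → k, (∀ i, μ i ≠ 0) ∧ ∀ i, ∀ x ∈ E i, (D i)^[p] x = μ i ^ (p - 1) • D i x

/-- The element `x` of `K` is a product of elements `s i` of the fields `F i` of the constants of `D i`
in `E i`. -/
def IsProductOfConstants (x : K) : Prop :=
  ∃ s : Fin n → K, (∀ i, s i ∈ E i ∧ D i (s i) = 0) ∧ x = ∏ i, s i

/-- On the ring generated by `k` and the fields `F i` of the constants of `D i` in `E i`, the valuation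
of `N` is given by its values on the products `s 1 * ... * s n` of elements `s i ∈ F i`: every
element `z` of this ring is a finite sum of such products, whose values (in multiplicative
notation) are at most the value of `z`. -/
def IsTensorProductOfRestrictions (N : IntermediateField k K) (W : ValuationSubring N) : Prop :=
  ∀ z ∈ Algebra.adjoin k {x : N | ∃ i, (x : K) ∈ E i ∧ D i x = 0},
    ∃ (m : ℕ) (a : Fin m → N), (∀ j, IsProductOfConstants E D (a j : K)) ∧ z = ∑ j, a j ∧
      ∀ j, W.valuation (a j) ≤ W.valuation z

end

/-- Let `k` be a perfect field of characteristic `p`. Let the field extension `K` of `k` be generated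
by linearly disjoint subfields `E 1, ..., E n`, which are function fields of smooth projective
surfaces over `k`. Let `D i` be derivations of `K` over `k` which map `E i` to `E i` and vanish on
the `E l`, `l ≠ i`. Suppose that `(D i) ^ p = 0` on `E i` for all `i`, or that there are elements
`μ i ≠ 0` of `k` with `(D i) ^ p = μ i ^ (p - 1) * D i` on `E i` for all `i`. Let `N` be the field of
common constants of the derivations `∑ i, v i * D i`, `v ∈ V`, for a set `V` of vectors in `k ^ n`.
Let `W` be a valuation ring of `N` over `k` which on the ring generated by the constants of the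
`D i` in the `E i` is given by its values on the products `s 1 * ... * s n`, `s i ∈ E i`,
`D i (s i) = 0`. Then `W` is uniformizable on every affine variety `Spec A` over `k` with the
function field `N` on which it has a centre. -/
theorem result (p : ℕ) [Fact p.Prime] (k K : Type) [Field k] [PerfectField k] [CharP k p]
    [Field K] [Algebra k K] (n : ℕ) (E : Fin n → IntermediateField k K)
    (D : Fin n → Derivation k K K) (V : Set (Fin n → k)) (N : IntermediateField k K)
    (hE : IsProductOfSurfaces E) (hD : AreFieldsOnFactors E D p)
    (hN : ∀ x, x ∈ N ↔ ∀ v ∈ V, ∑ i, v i • D i x = 0)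
    (W : ValuationSubring N) (hkW : ∀ c : k, algebraMap k N c ∈ W)
    (hW : IsTensorProductOfRestrictions E D N W) (A : Subalgebra k N) (hA : A.FG)
    (hfr : ∀ x : N, ∃ a ∈ A, ∃ b ∈ A, b ≠ 0 ∧ x = a * b⁻¹) (hAW : ∀ a ∈ A, a ∈ W) :
    IsUniformizable W A.toSubring := by
  classical
  have hp : p.Prime := Fact.out
  have hcK : CharP K p := charP_of_injective_algebraMap (algebraMap k K).injective p
  have hmod : ∀ (E : Type) [Field E] [Algebra k E], HasSmoothProjectiveModel k E →
      Pool.Agent.W558.HasModel k E := by
    rintro E _ _ ⟨N, H, h0, h1⟩
    refine ⟨N, H, h0, fun i => ⟨(h1 i).1, fun x => ?_⟩⟩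
    have h2 := (h1 i).2
    obtain ⟨a, b, hb, rfl⟩ := IsFractionRing.div_surjective
      (A := Algebra.adjoin k (Set.range fun j => H j / H i)) x
    exact ⟨a, a.2, b, b.2, fun h => nonZeroDivisors.ne_zero hb (Subtype.ext h),
      div_eq_mul_inv _ _⟩
  -- `p`-th powers
  have hDpow : ∀ i (z : K), D i (z ^ p) = 0 := by
    intro i z
    rw [Derivation.leibniz_pow]
    have h0 : (p : K) = 0 := CharP.cast_eq_zero K p
    rw [← Nat.cast_smul_eq_nsmul K p, h0, zero_smul]
  have hpN : ∀ z : K, z ^ p ∈ N := by
    intro z
    rw [hN]
    intro v _
    exact Finset.sum_eq_zero fun i _ => by rw [hDpow, smul_zero]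
  let S0 : Set N := {x : N | ∃ i, (x : K) ∈ E i ∧ D i x = 0}
  let M' : IntermediateField k N := IntermediateField.adjoin k S0
  have hpow : ∀ z : K, (⟨z ^ p, hpN z⟩ : N) ∈ M' := by
    intro z
    have hz : z ∈ IntermediateField.adjoin k (⋃ i, (E i : Set K)) := by
      rw [hE.generate]; trivial
    induction hz using IntermediateField.adjoin_induction with
    | mem z hz =>
      obtain ⟨i, hi⟩ := Set.mem_iUnion.1 hz
      exact IntermediateField.subset_adjoin k S0 ⟨i, pow_mem hi p, hDpow i z⟩
    | algebraMap c =>
      have h1 : (⟨(algebraMap k K c) ^ p, hpN _⟩ : N) = algebraMap k N (c ^ p) := by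
        apply Subtype.ext
        exact (map_pow (algebraMap k K) c p).symm
      rw [h1]
      exact M'.algebraMap_mem _
    | add x y _ _ hx hy =>
      have h1 : (⟨(x + y) ^ p, hpN _⟩ : N) = ⟨x ^ p, hpN x⟩ + ⟨y ^ p, hpN y⟩ :=
        Subtype.ext (by exact add_pow_char (x : K) y p)
      rw [h1]
      exact add_mem hx hy
    | inv x _ hx =>
      have h1 : (⟨(x⁻¹) ^ p, hpN _⟩ : N) = (⟨x ^ p, hpN x⟩ : N)⁻¹ :=
        Subtype.ext (inv_pow x p)
      rw [h1]
      exact inv_mem hx
    | mul x y _ _ hx hy =>
      have h1 : (⟨(x * y) ^ p, hpN _⟩ : N) = ⟨x ^ p, hpN x⟩ * ⟨y ^ p, hpN y⟩ :=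
        Subtype.ext (mul_pow x y p)
      rw [h1]
      exact mul_mem hx hy
  have halg : ∀ x : N, IsAlgebraic M' x := by
    intro x
    refine IsAlgebraic.of_pow hp.pos (n := p) ?_
    have h1 : x ^ p = algebraMap M' N ⟨⟨(x : K) ^ p, hpN _⟩, hpow _⟩ := Subtype.ext rfl
    rw [h1]
    exact isAlgebraic_algebraMap _
  let Y : Set N := {y : N | y ≠ 0 ∧ IsProductOfConstants E D (y : K)}
  have hT : ∀ z ∈ Algebra.adjoin k S0, Pool.Agent.TH214.U.Dmn W Y z := by
    intro z hz
    obtain ⟨m, a, ha, hz', hv⟩ := hW z hz
    refine ⟨m, a, fun j => ?_, hz', hv⟩
    by_cases h0 : a j = 0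
    · exact Or.inl h0
    · exact Or.inr ⟨h0, ha j⟩
  have h := Pool.Agent.TH214.U.unif_abs W hkW S0 Y (fun y hy => hy.1) hT halg
    (fun S _ y hy => Pool.Agent.TH188.VQ.exists_model_fld p E D Pool.Agent.TH188.VQ.mulHomInj
      (fun i => (hE.surface i).1) (fun i => hmod _ (hE.surface i).2) hE.disjoint hE.generate
      hD.maps hD.vanish hD.power V N hN S y (fun b => (hy b).1) (fun b => (hy b).2)) A hA hAW hfr
  intro I₀ hI₀
  obtain ⟨I₁, hI₁, g, hg, hg0, hgV, hreg⟩ := h I₀ hI₀
  exact ⟨I₁, hI₁, g, hg, hg0, hgV, hreg⟩

end Pool.Agent.Results.MP_5b7a2c_ag.VectorFieldQuotients
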